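import Mathlib
import Pool.Agent.H.MP_e13f12_an.C

set_option autoImplicit false

namespace Pool.Agent.Results.MP_e13f12_an.No

theorem result (X : Type*) [AddCommGroup X] [Module ℝ X] [TopologicalSpace X] [IsTopologicalAddGroup X]
    [ContinuousSMul ℝ X] [LocallyConvexSpace ℝ X] [T2Space X] [Nontrivial X] (T : X →L[ℝ] X) :
    ¬ ∃ x : X, ∀ a b : ℝ, 0 < a →
      Dense (Set.range fun n : ℕ => (⇑(a • T + b • ContinuousLinearMap.id ℝ X))^[n] x) :=
  H.MP_e13f12_an.main T

end Pool.Agent.Results.MP_e13f12_an.No
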